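import Pool.Agent.Y812.NS.FREP2

/-!
Fourier representation of horizontal fields: the trilinear form and the final statement.
-/

open Set Filter Topology MeasureTheory
open scoped SchwartzMap FourierTransform LineDeriv Convolution

set_option autoImplicit false

namespace Pool.Agent.Y812.NS

open Pool.Agent.Y5

/-- The double Fourier transform is the reflection. -/
lemma four_four (c : 𝓢(E3, ℂ)) (x : E3) : 𝓕 (𝓕 c) x = c (-x) := by
  have h : 𝓕⁻ (𝓕 c) (-x) = c (-x) := by
    rw [FourierTransform.fourierInv_fourier_eq]
  rw [← h, SchwartzMap.fourierInv_apply_eq]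
  simp

/-- Integral of a product of three Fourier transforms. -/
lemma triple (a b c : 𝓢(E3, ℂ)) :
    ∫ y, 𝓕 a y * 𝓕 b y * 𝓕 c y = ∫ ξ : E3, ∫ η : E3, a ξ * b η * c (-(ξ + η)) := by
  have h1 : ∀ y, 𝓕 a y * 𝓕 b y
      = 𝓕 (SchwartzMap.convolution (ContinuousLinearMap.mul ℂ ℂ) a b) y := by
    intro y
    rw [SchwartzMap.fourier_convolution, SchwartzMap.pairing_apply_apply]
    rfl
  simp only [h1]
  rw [SchwartzMap.integral_fourier_mul_eq]
  simp only [four_four, SchwartzMap.convolution_apply]
  have h2 : ∀ x : E3, ((a : E3 → ℂ) ⋆[ContinuousLinearMap.mul ℂ ℂ] (b : E3 → ℂ)) x * c (-x)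
      = ∫ t, a t * b (x - t) * c (-x) := by
    intro x
    rw [convolution_def, ← integral_mul_const]
    rfl
  simp only [h2]
  have hi : Integrable (Function.uncurry fun (x t : E3) => a t * b (x - t) * c (-x))
      ((volume : Measure E3).prod volume) := by
    have hc := (a.integrable (μ := (volume : Measure E3))).convolution_integrand
      (ContinuousLinearMap.mul ℂ ℂ) (b.integrable (μ := (volume : Measure E3)))
    obtain ⟨C, hC⟩ : ∃ C, ∀ x, ‖c x‖ ≤ C :=
      ⟨_, fun x => SchwartzMap.norm_le_seminorm ℝ c x⟩
    have hm : AEStronglyMeasurable (fun p : E3 × E3 => c (-p.1))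
        ((volume : Measure E3).prod volume) :=
      (c.continuous.comp (continuous_fst.neg)).aestronglyMeasurable
    have := hc.mul_bdd (c := C) hm (Filter.Eventually.of_forall fun p => hC _)
    exact this
  rw [integral_integral_swap hi]
  apply integral_congr_ae
  filter_upwards with t
  have h3 := integral_add_left_eq_self (μ := (volume : Measure E3))
    (fun x => a t * b (x - t) * c (-x)) t
  rw [← h3]
  apply integral_congr_ae
  filter_upwards with η
  simp

lemma part5 {F G H : E3 → ℝ} (hF : Cce F) (hG : Cce G) (hH : Cce H) :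
    tri (flow F) (flow G) (flow H)
    = (2 * Real.pi) ^ 4 * ∫ ξ : E3, ∫ η : E3, F ξ * G η * H (ξ + η)
      * (ξ 0 * η 1 - ξ 1 * η 0) * (η 0 * (ξ 0 + η 0) + η 1 * (ξ 1 + η 1)) := by
  let e (m : Fin 3) : E3 := EuclideanSpace.single m 1
  let D (m i : Fin 3) (y : E3) : ℝ := fderiv ℝ (flow G) y (e m) i
  have hD : ∀ (m i : Fin 3) (y : E3), 𝓕 (BB hG i (e m)) y = ((D m i y : ℝ) : ℂ) := by
    intro m i y
    exact fderiv_flow_eq_fourier hG y _ i
  -- the integrand
  have e1 : tri (flow F) (flow G) (flow H)
      = ∫ y, ∑ i : Fin 3, ∑ m : Fin 3, flow F y m * D m i y * flow H y i := by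
    unfold tri
    apply integral_congr_ae
    filter_upwards with y
    rw [PiLp.inner_apply]
    apply Finset.sum_congr rfl
    intro i _
    have hdec : flow F y = ∑ m : Fin 3, flow F y m • e m := by
      ext j
      simp [e, Fin.sum_univ_three, PiLp.add_apply, PiLp.smul_apply]
      fin_cases j <;> simp
    have h2 : (fderiv ℝ (flow G) y (flow F y)) i = ∑ m : Fin 3, flow F y m * D m i y := by
      conv_lhs => rw [hdec]
      rw [map_sum]
      simp only [map_smul]
      simp [D, Fin.sum_univ_three, PiLp.add_apply, PiLp.smul_apply]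
    rw [h2]
    simp only [RCLike.inner_apply, conj_trivial]
    rw [Finset.mul_sum]
    apply Finset.sum_congr rfl
    intro m _
    ring
  have hint : ∀ i m : Fin 3, Integrable (fun y => flow F y m * D m i y * flow H y i) := by
    intro i m
    apply int_real
    have := int_mul3 (𝓕 (AA hF m)) (𝓕 (BB hG i (e m))) (𝓕 (AA hH i))
    simp only [hD, flow_eq_fourier] at this
    simpa using this
  -- the amplitude side
  let K (i m : Fin 3) (ξ η : E3) : ℝ :=
    amp F m ξ * (2 * Real.pi * η m * amp G i η) * amp H i (ξ + η)
  have hK : ∀ i m : Fin 3, ∫ y, flow F y m * D m i y * flow H y i = ∫ ξ, ∫ η, K i m ξ η := by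
    intro i m
    have h := triple (AA hF m) (BB hG i (e m)) (AA hH i)
    simp only [hD, flow_eq_fourier] at h
    apply Complex.ofReal_injective
    rw [← integral_complex_ofReal, ← integral_complex_ofReal]
    simp only [← integral_complex_ofReal]
    push_cast
    rw [h]
    apply integral_congr_ae
    filter_upwards with ξ
    apply integral_congr_ae
    filter_upwards with η
    rw [AA_apply, BB_apply, AA_apply, amp_odd hH]
    simp only [K, e, EuclideanSpace.inner_single_right]
    push_cast
    simp
    linear_combination (-(amp F m ξ * (2 * Real.pi * η m * amp G i η) * amp H i (ξ + η) : ℂ)) *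
      Complex.I_mul_I
  have hKint1 : ∀ i m : Fin 3, ∀ ξ, Integrable (fun η => K i m ξ η) := by
    intro i m ξ
    have hc1 : Continuous (amp G i) := (amp_smooth hG i).continuous
    have hc2 : Continuous (amp H i) := (amp_smooth hH i).continuous
    apply Continuous.integrable_of_hasCompactSupport
    · fun_prop
    · have hs := amp_supp hG i
      have : HasCompactSupport (fun η : E3 => amp F m ξ * (2 * Real.pi * η m * amp G i η)) :=
        (hs.mul_left (f := fun η : E3 => 2 * Real.pi * η m)).mul_left
      exact this.mul_right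
  have hKint2 : ∀ i m : Fin 3, Integrable (fun ξ => ∫ η, K i m ξ η) := by
    intro i m
    have hc0 : Continuous (amp F m) := (amp_smooth hF m).continuous
    have hc1 : Continuous (amp G i) := (amp_smooth hG i).continuous
    have hc2 : Continuous (amp H i) := (amp_smooth hH i).continuous
    have hb : Integrable (Function.uncurry (K i m)) ((volume : Measure E3).prod volume) := by
      apply Continuous.integrable_of_hasCompactSupport
      · change Continuous (fun p : E3 × E3 => K i m p.1 p.2)
        fun_prop
      · apply HasCompactSupport.intro ((amp_supp hF m).isCompact.prod (amp_supp hG i).isCompact)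
        rintro ⟨ξ, η⟩ hne
        simp only [Function.uncurry, K]
        rw [Set.mem_prod, not_and_or] at hne
        rcases hne with hne | hne
        · rw [image_eq_zero_of_notMem_tsupport hne]; ring
        · rw [image_eq_zero_of_notMem_tsupport hne]; ring
    exact hb.integral_prod_left
  rw [e1, integral_finsetSum _ (fun i _ => integrable_finsetSum _ (fun m _ => hint i m))]
  have e2 : ∀ i : Fin 3, ∫ y, ∑ m : Fin 3, flow F y m * D m i y * flow H y i
      = ∫ ξ, ∑ m : Fin 3, ∫ η, K i m ξ η := by
    intro i
    rw [integral_finsetSum _ (fun m _ => hint i m), integral_finsetSum _ (fun m _ => hKint2 i m)]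
    exact Finset.sum_congr rfl (fun m _ => hK i m)
  simp only [e2]
  rw [← integral_finsetSum _ (fun i _ => integrable_finsetSum _ (fun m _ => hKint2 i m)),
    ← integral_const_mul]
  apply integral_congr_ae
  filter_upwards with ξ
  have e3 : ∀ i : Fin 3, ∑ m : Fin 3, ∫ η, K i m ξ η = ∫ η, ∑ m : Fin 3, K i m ξ η := by
    intro i
    rw [integral_finsetSum _ (fun m _ => hKint1 i m ξ)]
  simp only [e3]
  rw [← integral_finsetSum _ (fun i _ => integrable_finsetSum _ (fun m _ => hKint1 i m ξ)),
    ← integral_const_mul]
  apply integral_congr_ae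
  filter_upwards with η
  simp [Fin.sum_univ_three, K, amp, rr]
  ring

/-- The Fourier representation. -/
theorem t_FREP : Pool.Agent.Y5.S_FREP :=
  ⟨fun _ hG => part1 hG, fun _ hG y => part2 hG y, fun _ _ hG hH => part3 hG hH,
    fun _ _ hG hH => part4 hG hH, fun _ _ _ hF hG hH => part5 hF hG hH⟩

end Pool.Agent.Y812.NS
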