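import Pool.Agent.Y5.Stm

/-!
Fourier representation of horizontal fields, first part.
-/

open Set Filter Topology MeasureTheory
open scoped SchwartzMap FourierTransform

set_option autoImplicit false

namespace Pool.Agent.Y812.NS

open Pool.Agent.Y5

/-- The rotated horizontal vector. -/
noncomputable def rr (i : Fin 3) (ξ : E3) : ℝ := (![-ξ 1, ξ 0, 0] : Fin 3 → ℝ) i

lemma rr_neg (i : Fin 3) (ξ : E3) : rr i (-ξ) = - rr i ξ := by
  fin_cases i <;> simp [rr]

lemma rr_smooth (i : Fin 3) : ContDiff ℝ (⊤ : ℕ∞) (rr i) := by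
  fin_cases i
  · change ContDiff ℝ (⊤ : ℕ∞) (fun ξ : E3 => -ξ 1)
    fun_prop
  · change ContDiff ℝ (⊤ : ℕ∞) (fun ξ : E3 => ξ 0)
    fun_prop
  · change ContDiff ℝ (⊤ : ℕ∞) (fun ξ : E3 => (0 : ℝ))
    fun_prop

/-- Amplitude. -/
noncomputable def amp (G : E3 → ℝ) (i : Fin 3) (ξ : E3) : ℝ := 2 * Real.pi * rr i ξ * G ξ

lemma amp_smooth {G : E3 → ℝ} (hG : Cce G) (i : Fin 3) : ContDiff ℝ (⊤ : ℕ∞) (amp G i) := by
  unfold amp
  exact (contDiff_const.mul (rr_smooth i)).mul hG.smooth

lemma amp_supp {G : E3 → ℝ} (hG : Cce G) (i : Fin 3) : HasCompactSupport (amp G i) := by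
  unfold amp
  exact hG.supp.mul_left

lemma amp_odd {G : E3 → ℝ} (hG : Cce G) (i : Fin 3) (ξ : E3) : amp G i (-ξ) = - amp G i ξ := by
  unfold amp
  rw [rr_neg, hG.even]; ring

/-- Complex amplitude as a smooth function. -/
lemma ampI_smooth {G : E3 → ℝ} (hG : Cce G) (i : Fin 3) :
    ContDiff ℝ (⊤ : ℕ∞) (fun ξ => (amp G i ξ : ℂ) * Complex.I) := by
  have h := amp_smooth hG i
  have h2 : ContDiff ℝ (⊤ : ℕ∞) (fun ξ => (amp G i ξ : ℂ)) :=
    Complex.ofRealCLM.contDiff.comp h
  exact h2.mul contDiff_const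

lemma ampI_supp {G : E3 → ℝ} (hG : Cce G) (i : Fin 3) :
    HasCompactSupport (fun ξ => (amp G i ξ : ℂ) * Complex.I) := by
  have h := amp_supp hG i
  have h2 : HasCompactSupport (fun ξ => (amp G i ξ : ℂ)) := by
    have := h.comp_left (g := fun x : ℝ => (x : ℂ)) (by simp)
    exact this
  exact h2.mul_right

/-- The Schwartz function whose Fourier transform is the `i`-th component of the flow. -/
noncomputable def AA {G : E3 → ℝ} (hG : Cce G) (i : Fin 3) : 𝓢(E3, ℂ) :=
  (ampI_supp hG i).toSchwartzMap (ampI_smooth hG i)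

lemma AA_apply {G : E3 → ℝ} (hG : Cce G) (i : Fin 3) (ξ : E3) :
    AA hG i ξ = (amp G i ξ : ℂ) * Complex.I := rfl

lemma flow_integrable {G : E3 → ℝ} (hG : Cce G) (y : E3) :
    Integrable (fun ξ : E3 => (2 * Real.pi * Real.sin (2 * Real.pi * inner ℝ ξ y) * G ξ) •
    (WithLp.toLp 2 ![-ξ 1, ξ 0, 0] : E3)) := by
  apply Continuous.integrable_of_hasCompactSupport
  · have h1 : Continuous G := hG.smooth.continuous
    have h2 : Continuous (fun ξ : E3 => (WithLp.toLp 2 ![-ξ 1, ξ 0, 0] : E3)) := by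
      apply (PiLp.continuous_toLp 2 _).comp
      apply continuous_pi
      intro i
      fin_cases i
      · change Continuous (fun ξ : E3 => -ξ 1)
        fun_prop
      · change Continuous (fun ξ : E3 => ξ 0)
        fun_prop
      · change Continuous (fun ξ : E3 => (0:ℝ))
        fun_prop
    have h3 : Continuous (fun ξ : E3 => 2 * Real.pi * Real.sin (2 * Real.pi * inner ℝ ξ y) * G ξ) := by
      fun_prop
    exact h3.smul h2
  · have h4 : HasCompactSupport
        (fun ξ : E3 => 2 * Real.pi * Real.sin (2 * Real.pi * inner ℝ ξ y) * G ξ) :=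
      hG.supp.mul_left
    exact h4.smul_right

lemma flow_apply {G : E3 → ℝ} (hG : Cce G) (y : E3) (i : Fin 3) :
    flow G y i = ∫ ξ : E3, amp G i ξ * Real.sin (2 * Real.pi * inner ℝ ξ y) := by
  have h := (EuclideanSpace.proj i : E3 →L[ℝ] ℝ).integral_comp_comm
    (flow_integrable hG y)
  have h2 : flow G y i = (EuclideanSpace.proj i : E3 →L[ℝ] ℝ) (flow G y) := rfl
  rw [h2, flow, ← h]
  apply integral_congr_ae
  filter_upwards with ξ
  have h3 : ∀ v : E3, (EuclideanSpace.proj i : E3 →L[ℝ] ℝ) v = v i := fun _ => rfl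
  rw [h3]
  simp only [PiLp.smul_apply, smul_eq_mul, amp, rr]
  ring

/-- Key identity: the components of the flow are Fourier transforms. -/
lemma flow_eq_fourier {G : E3 → ℝ} (hG : Cce G) (y : E3) (i : Fin 3) :
    𝓕 (AA hG i) y = ((flow G y i : ℝ) : ℂ) := by
  rw [flow_apply hG, SchwartzMap.fourier_coe, Real.fourier_eq']
  have hc : Continuous (amp G i) := (amp_smooth hG i).continuous
  have hsup := amp_supp hG i
  have hi1 : Integrable (fun ξ : E3 => amp G i ξ * Real.sin (2 * Real.pi * inner ℝ ξ y)) := by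
    apply Continuous.integrable_of_hasCompactSupport
    · fun_prop
    · exact hsup.mul_right
  have hi2 : Integrable (fun ξ : E3 => amp G i ξ * Real.cos (2 * Real.pi * inner ℝ ξ y)) := by
    apply Continuous.integrable_of_hasCompactSupport
    · fun_prop
    · exact hsup.mul_right
  have hz : ∫ ξ : E3, amp G i ξ * Real.cos (2 * Real.pi * inner ℝ ξ y) = 0 := by
    have h1 := integral_neg_eq_self (fun ξ : E3 => amp G i ξ * Real.cos (2 * Real.pi * inner ℝ ξ y))
      volume
    have h2 : ∫ ξ : E3, amp G i (-ξ) * Real.cos (2 * Real.pi * inner ℝ (-ξ) y)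
        = - ∫ ξ : E3, amp G i ξ * Real.cos (2 * Real.pi * inner ℝ ξ y) := by
      rw [← integral_neg]
      apply integral_congr_ae
      filter_upwards with ξ
      rw [amp_odd hG, inner_neg_left, mul_neg, Real.cos_neg]
      ring
    rw [h2] at h1
    linarith
  have hsplit : ∀ ξ : E3, Complex.exp (((-2 * Real.pi * inner ℝ ξ y : ℝ) : ℂ) * Complex.I) • (AA hG i) ξ
      = ((amp G i ξ * Real.sin (2 * Real.pi * inner ℝ ξ y) : ℝ) : ℂ)
        + ((amp G i ξ * Real.cos (2 * Real.pi * inner ℝ ξ y) : ℝ) : ℂ) * Complex.I := by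
    intro ξ
    rw [AA_apply, Complex.exp_mul_I]
    have : ((-2 * Real.pi * inner ℝ ξ y : ℝ) : ℂ) = -((2 * Real.pi * inner ℝ ξ y : ℝ) : ℂ) := by
      push_cast; ring
    rw [this, Complex.cos_neg, Complex.sin_neg, ← Complex.ofReal_cos, ← Complex.ofReal_sin]
    simp only [smul_eq_mul]
    push_cast
    linear_combination (-(Complex.sin (2 * Real.pi * (inner ℝ ξ y : ℝ))) * (amp G i ξ : ℂ)) * Complex.I_mul_I
  rw [integral_congr_ae (Filter.Eventually.of_forall hsplit)]
  rw [integral_add (hi1.ofReal) ((hi2.ofReal).mul_const _), integral_mul_const,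
    integral_complex_ofReal, integral_complex_ofReal, hz]
  simp

end Pool.Agent.Y812.NS
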