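import Pool.Agent.Y812.NS.FREP1

/-!
Fourier representation of horizontal fields, second part.
-/

open Set Filter Topology MeasureTheory
open scoped SchwartzMap FourierTransform LineDeriv

set_option autoImplicit false

namespace Pool.Agent.Y812.NS

open Pool.Agent.Y5

/-- The `i`-th component as a vector. -/
noncomputable def cL (i : Fin 3) : ℂ →L[ℝ] E3 :=
  (Complex.reCLM).smulRight (EuclideanSpace.single i (1:ℝ))

lemma cL_apply (i : Fin 3) (z : ℂ) : cL i z = z.re • (EuclideanSpace.single i (1:ℝ) : E3) := rfl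

/-- The flow as a Schwartz function. -/
noncomputable def FS {G : E3 → ℝ} (hG : Cce G) : 𝓢(E3, E3) :=
  ∑ i : Fin 3, SchwartzMap.postcompCLM (𝕜 := ℝ) (cL i) (𝓕 (AA hG i))

lemma FS_apply {G : E3 → ℝ} (hG : Cce G) (y : E3) : FS hG y = flow G y := by
  unfold FS
  rw [sum_apply]
  simp only [SchwartzMap.postcompCLM_apply, flow_eq_fourier, cL_apply, Complex.ofReal_re]
  ext j
  simp [Fin.sum_univ_three, PiLp.add_apply, PiLp.smul_apply]
  fin_cases j <;> simp

lemma FS_coe {G : E3 → ℝ} (hG : Cce G) : (FS hG : E3 → E3) = flow G := funext (FS_apply hG)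

lemma flow_diff {G : E3 → ℝ} (hG : Cce G) : Differentiable ℝ (flow G) := by
  rw [← FS_coe hG]; exact (FS hG).differentiable

/-- The amplitude of the derivative. -/
noncomputable def BB {G : E3 → ℝ} (hG : Cce G) (i : Fin 3) (m : E3) : 𝓢(E3, ℂ) :=
  -(2 * Real.pi * Complex.I) • SchwartzMap.smulLeftCLM ℂ (fun ξ : E3 => inner ℝ ξ m) (AA hG i)

lemma BB_apply {G : E3 → ℝ} (hG : Cce G) (i : Fin 3) (m ξ : E3) :
    BB hG i m ξ = ((2 * Real.pi * inner ℝ ξ m * amp G i ξ : ℝ) : ℂ) := by
  have hg : (fun ξ : E3 => (inner ℝ ξ m : ℝ)).HasTemperateGrowth := by fun_prop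
  unfold BB
  rw [smul_apply, SchwartzMap.smulLeftCLM_apply_apply hg, AA_apply]
  simp only [smul_eq_mul, Complex.real_smul]
  push_cast
  linear_combination (-(2 * Real.pi * (inner ℝ ξ m : ℝ) * amp G i ξ : ℂ)) * Complex.I_mul_I

/-- Derivatives of the components are Fourier transforms. -/
lemma fderiv_flow_eq_fourier {G : E3 → ℝ} (hG : Cce G) (y m : E3) (i : Fin 3) :
    𝓕 (BB hG i m) y = ((fderiv ℝ (flow G) y m i : ℝ) : ℂ) := by
  have h1 : ∂_{m} (𝓕 (AA hG i)) = 𝓕 (BB hG i m) := SchwartzMap.lineDerivOp_fourier_eq _ m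
  rw [← h1, SchwartzMap.lineDerivOp_apply_eq_fderiv]
  have h2 : ((𝓕 (AA hG i) : 𝓢(E3, ℂ)) : E3 → ℂ)
      = (Complex.ofRealCLM ∘L (EuclideanSpace.proj i : E3 →L[ℝ] ℝ)) ∘ flow G := by
    funext y
    rw [flow_eq_fourier hG y i]
    rfl
  rw [h2, fderiv_comp _ (ContinuousLinearMap.differentiableAt _) (flow_diff hG y),
    ContinuousLinearMap.fderiv]
  rfl

lemma part1 {G : E3 → ℝ} (hG : Cce G) : ∃ φ : 𝓢(E3, E3), ∀ y, φ y = flow G y :=
  ⟨FS hG, FS_apply hG⟩

lemma part2 {G : E3 → ℝ} (hG : Cce G) (y : E3) :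
    ∑ i : Fin 3, (fderiv ℝ (flow G) y (EuclideanSpace.single i 1)) i = 0 := by
  have h0 : ∑ i : Fin 3, BB hG i (EuclideanSpace.single i 1) = 0 := by
    ext ξ
    rw [sum_apply]
    simp only [BB_apply, zero_apply, Fin.sum_univ_three, amp, rr,
      EuclideanSpace.inner_single_right]
    simp
    ring
  have h1 : 𝓕 (∑ i : Fin 3, BB hG i (EuclideanSpace.single i 1)) y = 0 := by
    rw [h0]
    simp
  have h2 : 𝓕 (∑ i : Fin 3, BB hG i (EuclideanSpace.single i 1)) y
      = ∑ i : Fin 3, 𝓕 (BB hG i (EuclideanSpace.single i 1)) y := by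
    have := map_sum (SchwartzMap.fourierTransformCLM ℂ (V := E3) (E := ℂ))
      (fun i : Fin 3 => BB hG i (EuclideanSpace.single i 1)) Finset.univ
    simp only [SchwartzMap.fourierTransformCLM_apply] at this
    rw [this, sum_apply]
  rw [h2] at h1
  simp only [fderiv_flow_eq_fourier] at h1
  exact_mod_cast h1

/-- Products of Fourier transforms of Schwartz functions are integrable. -/
lemma int_mul (f g : 𝓢(E3, ℂ)) : Integrable (fun y : E3 => f y * g y) :=
  (SchwartzMap.pairing (ContinuousLinearMap.mul ℂ ℂ) f g).integrable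

lemma int_mul3 (f g h : 𝓢(E3, ℂ)) : Integrable (fun y : E3 => f y * g y * h y) :=
  (SchwartzMap.pairing (ContinuousLinearMap.mul ℂ ℂ)
    (SchwartzMap.pairing (ContinuousLinearMap.mul ℂ ℂ) f g) h).integrable

lemma planch (f g : 𝓢(E3, ℂ)) :
    ∫ y, (starRingEnd ℂ) (𝓕 f y) * 𝓕 g y = ∫ x, (starRingEnd ℂ) (f x) * g x := by
  have h := SchwartzMap.integral_inner_fourier_fourier f g
  simp only [RCLike.inner_apply'] at h
  exact h

lemma int_real {f : E3 → ℝ} (h : Integrable (fun y => (f y : ℂ))) : Integrable f := by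
  have := h.re
  simpa using this

lemma part3 {G H : E3 → ℝ} (hG : Cce G) (hH : Cce H) : ∫ y, inner ℝ (flow G y) (flow H y)
    = (2 * Real.pi) ^ 2 * ∫ ξ : E3, G ξ * H ξ * (ξ 0 ^ 2 + ξ 1 ^ 2) := by
  have hint : ∀ i : Fin 3, Integrable (fun y => flow G y i * flow H y i) := by
    intro i
    apply int_real
    have := int_mul (𝓕 (AA hG i)) (𝓕 (AA hH i))
    simp only [flow_eq_fourier] at this
    simpa using this
  have hinti : ∀ i : Fin 3, Integrable (fun ξ => amp G i ξ * amp H i ξ) := by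
    intro i
    apply int_real
    have := (int_mul (AA hG i) (AA hH i)).neg
    simp only [AA_apply] at this
    refine this.congr ?_
    filter_upwards with ξ
    simp only [Pi.neg_apply]
    push_cast
    linear_combination (-(amp G i ξ * amp H i ξ : ℂ)) * Complex.I_mul_I
  have hi : ∀ i : Fin 3, ∫ y, flow G y i * flow H y i = ∫ ξ, amp G i ξ * amp H i ξ := by
    intro i
    have h := planch (AA hG i) (AA hH i)
    simp only [flow_eq_fourier, AA_apply] at h
    apply Complex.ofReal_injective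
    rw [← integral_complex_ofReal, ← integral_complex_ofReal]
    calc _ = _ := ?_
      _ = _ := h
      _ = _ := ?_
    · apply integral_congr_ae
      filter_upwards with y
      simp
    · apply integral_congr_ae
      filter_upwards with ξ
      simp
      linear_combination (-(amp G i ξ * amp H i ξ : ℂ)) * Complex.I_mul_I
  have e1 : ∫ y, inner ℝ (flow G y) (flow H y) = ∫ y, ∑ i : Fin 3, flow G y i * flow H y i := by
    apply integral_congr_ae
    filter_upwards with y
    rw [PiLp.inner_apply]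
    simp [mul_comm]
  rw [e1, integral_finsetSum _ (fun i _ => hint i)]
  simp only [hi]
  rw [← integral_finsetSum _ (fun i _ => hinti i), ← integral_const_mul]
  apply integral_congr_ae
  filter_upwards with ξ
  simp [Fin.sum_univ_three, amp, rr]
  ring

lemma part4 {G H : E3 → ℝ} (hG : Cce G) (hH : Cce H) : gradIn (flow G) (flow H)
    = (2 * Real.pi) ^ 4 * ∫ ξ : E3, G ξ * H ξ * (ξ 0 ^ 2 + ξ 1 ^ 2) * ‖ξ‖ ^ 2 := by
  let D (K : E3 → ℝ) (m i : Fin 3) (y : E3) : ℝ := fderiv ℝ (flow K) y (EuclideanSpace.single m 1) i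
  let A (K : E3 → ℝ) (m i : Fin 3) (ξ : E3) : ℝ := 2 * Real.pi * ξ m * amp K i ξ
  have hD : ∀ {K : E3 → ℝ} (hK : Cce K) (m i : Fin 3) (y : E3),
      𝓕 (BB hK i (EuclideanSpace.single m 1)) y = ((D K m i y : ℝ) : ℂ) := by
    intro K hK m i y
    exact fderiv_flow_eq_fourier hK y _ i
  have hA : ∀ {K : E3 → ℝ} (hK : Cce K) (m i : Fin 3) (ξ : E3),
      BB hK i (EuclideanSpace.single m 1) ξ = ((A K m i ξ : ℝ) : ℂ) := by
    intro K hK m i ξ
    rw [BB_apply]
    simp [A, EuclideanSpace.inner_single_right]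
  have hint : ∀ m i : Fin 3, Integrable (fun y => D G m i y * D H m i y) := by
    intro m i
    apply int_real
    have := int_mul (𝓕 (BB hG i (EuclideanSpace.single m 1))) (𝓕 (BB hH i (EuclideanSpace.single m 1)))
    simp only [hD] at this
    simpa using this
  have hinti : ∀ m i : Fin 3, Integrable (fun y => A G m i y * A H m i y) := by
    intro m i
    apply int_real
    have := int_mul (BB hG i (EuclideanSpace.single m 1)) (BB hH i (EuclideanSpace.single m 1))
    simp only [hA] at this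
    simpa using this
  have hi : ∀ m i : Fin 3, ∫ y, D G m i y * D H m i y = ∫ ξ, A G m i ξ * A H m i ξ := by
    intro m i
    have h := planch (BB hG i (EuclideanSpace.single m 1)) (BB hH i (EuclideanSpace.single m 1))
    simp only [hD, hA] at h
    apply Complex.ofReal_injective
    rw [← integral_complex_ofReal, ← integral_complex_ofReal]
    simpa using h
  have e1 : gradIn (flow G) (flow H) = ∫ y, ∑ m : Fin 3, ∑ i : Fin 3, D G m i y * D H m i y := by
    unfold gradIn
    apply integral_congr_ae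
    filter_upwards with y
    apply Finset.sum_congr rfl
    intro m _
    rw [PiLp.inner_apply]
    simp [D, mul_comm]
  rw [e1, integral_finsetSum _ (fun m _ => integrable_finsetSum _ (fun i _ => hint m i))]
  have e2 : ∀ m : Fin 3, ∫ y, ∑ i : Fin 3, D G m i y * D H m i y
      = ∫ ξ, ∑ i : Fin 3, A G m i ξ * A H m i ξ := by
    intro m
    rw [integral_finsetSum _ (fun i _ => hint m i), integral_finsetSum _ (fun i _ => hinti m i)]
    exact Finset.sum_congr rfl (fun i _ => hi m i)
  simp only [e2]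
  rw [← integral_finsetSum _ (fun m _ => integrable_finsetSum _ (fun i _ => hinti m i)),
    ← integral_const_mul]
  apply integral_congr_ae
  filter_upwards with ξ
  have hn : ‖ξ‖ ^ 2 = ξ 0 ^ 2 + ξ 1 ^ 2 + ξ 2 ^ 2 := by
    rw [EuclideanSpace.norm_sq_eq]
    simp [Fin.sum_univ_three]
  rw [hn]
  simp [Fin.sum_univ_three, A, amp, rr]
  ring

end Pool.Agent.Y812.NS
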